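import Pool.Agent.R830.Sp.Fld

/-!
# MP_cdf40b_al: restricting the `Sp(6)` representation of highest weight `(a,b,0)` to `SL(2)^3`

The statement is proved on the level of characters of the common maximal torus
`T = (ℂˣ)³ ⊆ SL₂³ ⊆ Sp₆`, whose representation ring is the Laurent polynomial ring
`ℤ[Fin 3 → ℤ]`.
-/

namespace Pool.Agent.Results.MP_cdf40b_al.BranchingRule

open Finset Pool.Agent.R830.Sp

/-- The representation ring of the torus `T = (ℂˣ)³`: Laurent polynomials in three variables,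
the group ring of the character lattice `ℤ³`. -/
abbrev L : Type := AddMonoidAlgebra ℤ (Fin 3 → ℤ)

/-- The basis element `z_i ^ n` (the `n`-th power of the `i`-th coordinate character). -/
noncomputable def z (i : Fin 3) (n : ℤ) : L := AddMonoidAlgebra.single (Pi.single i n) 1

/-- The alternating sum `det (z_i ^ (l j) - z_i ^ (- l j))`: the sum over the Weyl group
`{±1}³ ⋊ S₃` of `Sp₆` of `sgn w • e^{w l}`. -/
noncomputable def alt (l : Fin 3 → ℤ) : L :=
  Matrix.det (Matrix.of (fun i j : Fin 3 => z i (l j) - z i (-(l j))))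

/-- `f` is the character of the irreducible representation `Π_{a,b,c}` of `Sp₆(ℂ)`: the Weyl
character formula, the highest weight `a ω₁ + b ω₂ + c ω₃` being `(a+b+c, b+c, c)` in the standard
coordinates and the half sum of the positive roots being `(3,2,1)`. -/
def IsWeylChar (a b c : ℕ) (f : L) : Prop :=
  f * alt ![3, 2, 1] = alt ![a + b + c + 3, b + c + 2, c + 1]

/-- The character of the representation `V_r = Sym^r ℂ²` of the `i`-th factor `SL₂`. -/
noncomputable def chi (i : Fin 3) (r : ℕ) : L := ∑ j ∈ range (r + 1), z i ((r : ℤ) - 2 * j)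

/-- The character of `π_{x₁,x₂,x₃} = V_{x₁} ⊠ V_{x₂} ⊠ V_{x₃}`. -/
noncomputable def chiH (x : Fin 3 → ℕ) : L := ∏ i, chi i (x i)

/-- The function `μ_{a,b}` of the problem: the sum over `0 ≤ k ≤ b` of
`1[x ∈ H_k] (k+1) (min (d_k(x), m_k) + 1)`. -/
def mu (a b : ℕ) (x : Fin 3 → ℕ) : ℕ :=
  ∑ k ∈ range (b + 1),
    if x 0 + x 1 + x 2 = a + 2 * b - 2 * k ∧ ∀ i, x i ≤ a + b - k then
      (k + 1) * (min (univ.inf' univ_nonempty fun i => min (x i) (a + b - k - x i))
        (min a (b - k)) + 1)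
    else 0

theorem mu_eq (a b : ℕ) (x : Fin 3 → ℕ) : mu a b x = mu' a b (x 0) (x 1) (x 2) := by
  rw [mu, mu']
  refine sum_congr rfl fun k hk => ?_
  rw [mem_range] at hk
  rw [nu]
  have e1 : a + 2 * (b - k) = a + 2 * b - 2 * k := by omega
  have e2 : a + (b - k) = a + b - k := by omega
  have e3 : (univ.inf' univ_nonempty fun i : Fin 3 => min (x i) (a + b - k - x i)) =
      min (min (x 0) (a + b - k - x 0)) (min (min (x 1) (a + b - k - x 1))
        (min (x 2) (a + b - k - x 2))) := by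
    apply le_antisymm
    · refine le_min (inf'_le _ (mem_univ 0)) (le_min (inf'_le _ (mem_univ 1))
        (inf'_le _ (mem_univ 2)))
    · rw [le_inf'_iff]
      intro i _
      fin_cases i
      · exact min_le_left _ _
      · exact (min_le_right _ _).trans (min_le_left _ _)
      · exact (min_le_right _ _).trans (min_le_right _ _)
  rw [e1, e2, e3]
  by_cases h : x 0 + x 1 + x 2 = a + 2 * b - 2 * k ∧ ∀ i, x i ≤ a + b - k
  · rw [if_pos h, if_pos ⟨h.1, h.2 0, h.2 1, h.2 2⟩]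
  · rw [if_neg h, if_neg, mul_zero]
    rintro ⟨h1, h2, h3, h4⟩
    refine h ⟨h1, fun i => ?_⟩
    fin_cases i
    · exact h2
    · exact h3
    · exact h4

section hom

variable {K : Type*} [Field K] (φ : L →+* K)

theorem z_mul (i : Fin 3) (m n : ℤ) : z i m * z i n = z i (m + n) := by
  rw [z, z, z, AddMonoidAlgebra.single_mul_single, mul_one, ← Pi.single_add]

theorem z_zero (i : Fin 3) : z i 0 = 1 := by
  rw [z, Pi.single_zero]; rfl

theorem phi_ne (i : Fin 3) : φ (z i 1) ≠ 0 := by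
  intro h
  have h1 : φ (z i 1 * z i (-1)) = 0 := by rw [map_mul, h, zero_mul]
  rw [z_mul, add_neg_cancel, z_zero, map_one] at h1
  exact one_ne_zero h1

theorem phi_z (i : Fin 3) (n : ℤ) : φ (z i n) = φ (z i 1) ^ n := by
  have hne := phi_ne φ i
  induction n using Int.induction_on with
  | zero => rw [z_zero, map_one, zpow_zero]
  | succ n ih => rw [← z_mul, map_mul, ih, zpow_add_one₀ hne]
  | pred n ih =>
    have h1 : φ (z i (-(n : ℤ) - 1)) * φ (z i 1) = φ (z i 1) ^ (-(n : ℤ)) := by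
      rw [← map_mul, z_mul, sub_add_cancel, ih]
    rw [zpow_sub_one₀ hne, ← h1, mul_assoc, mul_inv_cancel₀ hne, mul_one]

theorem phi_chi (i : Fin 3) (r : ℕ) : φ (chi i r) = U (φ (z i 1)) r := by
  rw [chi, U, map_sum]
  refine sum_congr rfl fun j _ => ?_
  rw [phi_z]

theorem phi_alt (l : Fin 3 → ℤ) : φ (alt l) = altK (fun i => φ (z i 1)) l := by
  rw [alt, altK, RingHom.map_det]
  congr 1
  ext i j
  simp only [RingHom.mapMatrix_apply, Matrix.map_apply, Matrix.of_apply, map_sub]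
  rw [phi_z, phi_z φ i (-(l j))]

theorem phi_chiH (x : Fin 3 → ℕ) : φ (chiH x) =
    U (φ (z 0 1)) (x 0) * U (φ (z 1 1)) (x 1) * U (φ (z 2 1)) (x 2) := by
  rw [chiH, Fin.prod_univ_three, map_mul, map_mul, phi_chi, phi_chi, phi_chi]

end hom

/-- The Weyl denominator of `H`. -/
noncomputable def P : L := ∏ i, (z i 1 - z i (-1))

theorem algMap_inj : Function.Injective (algebraMap L (FractionRing L)) :=
  IsFractionRing.injective L (FractionRing L)

theorem chi_mul (i : Fin 3) (r : ℕ) :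
    chi i r * (z i 1 - z i (-1)) = z i ((r : ℤ) + 1) - z i (-((r : ℤ) + 1)) := by
  apply algMap_inj
  have hne := phi_ne (algebraMap L (FractionRing L)) i
  have h := mm_mul_U _ hne r
  rw [map_mul, map_sub, map_sub, phi_chi, phi_z _ i (-1), phi_z _ i ((r : ℤ) + 1),
    phi_z _ i (-((r : ℤ) + 1)), mul_comm]
  rw [mm] at h
  rw [zpow_neg_one, h, zpow_neg, inv_pow]
  norm_cast

theorem chiH_mul (x : Fin 3 → ℕ) :
    chiH x * P = ∏ i, (z i ((x i : ℤ) + 1) - z i (-((x i : ℤ) + 1))) := by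
  rw [chiH, P, ← prod_mul_distrib]
  exact prod_congr rfl fun i _ => chi_mul i (x i)

theorem zzz (a b c : ℤ) : z 0 a * z 1 b * z 2 c = AddMonoidAlgebra.single ![a, b, c] 1 := by
  rw [z, z, z, AddMonoidAlgebra.single_mul_single, AddMonoidAlgebra.single_mul_single, mul_one,
    mul_one]
  congr 1
  ext i
  fin_cases i <;> simp

theorem coeff_zzz (a b c : ℤ) (y : Fin 3 → ℕ) :
    (z 0 a * z 1 b * z 2 c).coeff (fun i => (y i : ℤ) + 1) =
      if a = y 0 + 1 ∧ b = y 1 + 1 ∧ c = y 2 + 1 then 1 else 0 := by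
  rw [zzz, AddMonoidAlgebra.coeff_single, Finsupp.single_apply]
  congr 1
  rw [funext_iff, Fin.forall_fin_succ, Fin.forall_fin_succ, Fin.forall_fin_succ]
  simp

theorem coeff_chiH (x y : Fin 3 → ℕ) :
    (chiH x * P).coeff (fun i => (y i : ℤ) + 1) = if x = y then 1 else 0 := by
  have h1 : chiH x * P =
      z 0 ((x 0 : ℤ) + 1) * z 1 ((x 1 : ℤ) + 1) * z 2 ((x 2 : ℤ) + 1)
      - z 0 (-((x 0 : ℤ) + 1)) * z 1 ((x 1 : ℤ) + 1) * z 2 ((x 2 : ℤ) + 1)
      - z 0 ((x 0 : ℤ) + 1) * z 1 (-((x 1 : ℤ) + 1)) * z 2 ((x 2 : ℤ) + 1)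
      - z 0 ((x 0 : ℤ) + 1) * z 1 ((x 1 : ℤ) + 1) * z 2 (-((x 2 : ℤ) + 1))
      + z 0 (-((x 0 : ℤ) + 1)) * z 1 (-((x 1 : ℤ) + 1)) * z 2 ((x 2 : ℤ) + 1)
      + z 0 (-((x 0 : ℤ) + 1)) * z 1 ((x 1 : ℤ) + 1) * z 2 (-((x 2 : ℤ) + 1))
      + z 0 ((x 0 : ℤ) + 1) * z 1 (-((x 1 : ℤ) + 1)) * z 2 (-((x 2 : ℤ) + 1))
      - z 0 (-((x 0 : ℤ) + 1)) * z 1 (-((x 1 : ℤ) + 1)) * z 2 (-((x 2 : ℤ) + 1)) := by
    rw [chiH_mul, Fin.prod_univ_three]
    ring
  rw [h1]
  simp only [AddMonoidAlgebra.coeff_add, AddMonoidAlgebra.coeff_sub, Finsupp.add_apply,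
    Finsupp.sub_apply, coeff_zzz]
  have hn : ∀ a b : ℕ, ¬ (-((a : ℤ) + 1) = (b : ℤ) + 1) := by intro a b; omega
  simp only [hn, false_and, and_false, if_false, sub_zero, add_zero]
  congr 1
  rw [funext_iff, Fin.forall_fin_succ, Fin.forall_fin_succ, Fin.forall_fin_succ]
  simp

/-- The coefficient functional. -/
noncomputable def cf (y : Fin 3 → ℕ) : L →+ ℤ where
  toFun g := (g * P).coeff (fun i => (y i : ℤ) + 1)
  map_zero' := by simp
  map_add' g h := by simp [add_mul]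

theorem cf_sum (m : (Fin 3 → ℕ) →₀ ℕ) (y : Fin 3 → ℕ) :
    cf y (m.sum fun x n => n • chiH x) = m y := by
  rw [map_finsuppSum]
  have h1 : ∀ (x : Fin 3 → ℕ) (n : ℕ), cf y (n • chiH x) = if x = y then (n : ℤ) else 0 := by
    intro x n
    rw [map_nsmul]
    have : cf y (chiH x) = if x = y then 1 else 0 := coeff_chiH x y
    rw [this]
    split_ifs <;> simp
  simp only [h1]
  rw [Finsupp.sum_ite_eq']
  split_ifs with h
  · rfl
  · rw [Finsupp.notMem_support_iff] at h
    rw [h]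
    rfl

/-- Evaluation at the point `(2,3,5)`. -/
noncomputable def evHom : Multiplicative (Fin 3 → ℤ) →* ℚ where
  toFun v := (2 : ℚ) ^ (v.toAdd 0) * (3 : ℚ) ^ (v.toAdd 1) * (5 : ℚ) ^ (v.toAdd 2)
  map_one' := by simp
  map_mul' v w := by
    simp only [toAdd_mul, Pi.add_apply]
    rw [zpow_add₀ (by norm_num), zpow_add₀ (by norm_num), zpow_add₀ (by norm_num)]
    ring

/-- Evaluation at the point `(2,3,5)`. -/
noncomputable def ev : L →ₐ[ℤ] ℚ := AddMonoidAlgebra.lift ℤ ℚ (Fin 3 → ℤ) evHom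

theorem ev_z (i : Fin 3) : ev (z i 1) = ![2, 3, 5] i := by
  rw [ev, z, AddMonoidAlgebra.lift_single, one_smul, evHom]
  fin_cases i <;> simp

theorem alt_rho_ne : alt ![3, 2, 1] ≠ 0 := by
  intro h
  have h1 := phi_alt ev.toRingHom ![3, 2, 1]
  rw [altK_rho _ (fun i => phi_ne _ i), h, map_zero] at h1
  have h2 : ∀ i, ev.toRingHom (z i 1) = ![2, 3, 5] i := ev_z
  have e0 : (![2, 3, 5] : Fin 3 → ℚ) 0 = 2 := rfl
  have e1 : (![2, 3, 5] : Fin 3 → ℚ) 1 = 3 := rfl
  have e2 : (![2, 3, 5] : Fin 3 → ℚ) 2 = 5 := rfl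
  rw [h2, h2, h2, mm, mm, mm, V, e0, e1, e2] at h1
  norm_num at h1

/-- The multiplicities. -/
noncomputable def m0 (a b : ℕ) : (Fin 3 → ℕ) →₀ ℕ :=
  Finsupp.onFinset (Fintype.piFinset fun _ => range (a + 2 * b + 1)) (mu a b) (by
    intro x hx
    rw [Fintype.mem_piFinset]
    intro i
    rw [mem_range]
    by_contra hi
    apply hx
    rw [mu]
    refine sum_eq_zero fun k hk => ?_
    rw [if_neg]
    rintro ⟨-, h⟩
    have := h i
    omega)

theorem isWeylChar (a b : ℕ) : IsWeylChar a b 0 ((m0 a b).sum fun x n => n • chiH x) := by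
  rw [IsWeylChar]
  apply algMap_inj
  have hf := final_K a b (a + 2 * b + 1) (by omega)
    (fun i => algebraMap L (FractionRing L) (z i 1)) (fun i => phi_ne _ i)
  rw [map_mul, phi_alt, phi_alt, m0, Finsupp.onFinset_sum _ (by simp), map_sum]
  simp only [Nat.cast_zero, add_zero, zero_add]
  rw [← hf]
  congr 1
  have h1 : ∑ x ∈ Fintype.piFinset fun _ => range (a + 2 * b + 1),
      (algebraMap L (FractionRing L)) (mu a b x • chiH x) =
      ∑ p ∈ range (a + 2 * b + 1) ×ˢ range (a + 2 * b + 1) ×ˢ range (a + 2 * b + 1),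
        (mu' a b p.1 p.2.1 p.2.2 : FractionRing L) *
          (U (algebraMap L (FractionRing L) (z 0 1)) p.1 *
            U (algebraMap L (FractionRing L) (z 1 1)) p.2.1 *
            U (algebraMap L (FractionRing L) (z 2 1)) p.2.2) := by
    refine sum_nbij' (fun x => (x 0, x 1, x 2)) (fun p => ![p.1, p.2.1, p.2.2]) ?_ ?_ ?_ ?_ ?_
    · intro x hx
      rw [Fintype.mem_piFinset] at hx
      simp only [mem_product]
      exact ⟨hx 0, hx 1, hx 2⟩
    · rintro ⟨p, q, r⟩ h
      simp only [mem_product] at h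
      rw [Fintype.mem_piFinset]
      intro i
      fin_cases i
      · exact h.1
      · exact h.2.1
      · exact h.2.2
    · intro x hx
      ext i
      fin_cases i <;> rfl
    · rintro ⟨p, q, r⟩ h
      rfl
    · intro x hx
      rw [map_nsmul, phi_chiH, nsmul_eq_mul, mu_eq]
  rw [h1, sum_product]
  refine sum_congr rfl fun x _ => ?_
  rw [sum_product]

/-- **The branching rule holds for all `a, b`.** The Weyl character formula has exactly one
solution `f` for the highest weight `a ω₁ + b ω₂`; this `f` is a combination of the characters of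
the `π_{r,s,t}` with natural number coefficients `m` in exactly one way, and `m = μ_{a,b}`. -/
theorem result (a b : ℕ) : ∃ (f : L) (m : (Fin 3 → ℕ) →₀ ℕ),
    (∀ g : L, IsWeylChar a b 0 g ↔ g = f) ∧
    (∀ m' : (Fin 3 → ℕ) →₀ ℕ, f = (m'.sum fun x n => n • chiH x) ↔ m' = m) ∧
    ∀ x : Fin 3 → ℕ, m x = mu a b x := by
  refine ⟨(m0 a b).sum fun x n => n • chiH x, m0 a b, fun g => ⟨fun hg => ?_, ?_⟩,
    fun m' => ⟨fun h => ?_, ?_⟩, fun x => rfl⟩
  · have h1 := isWeylChar a b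
    rw [IsWeylChar] at h1 hg
    exact mul_right_cancel₀ alt_rho_ne (hg.trans h1.symm)
  · rintro rfl
    exact isWeylChar a b
  · ext y
    have h1 := congrArg (cf y) h
    rw [cf_sum, cf_sum] at h1
    exact_mod_cast h1.symm
  · rintro rfl
    rfl

end Pool.Agent.Results.MP_cdf40b_al.BranchingRule
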